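import Mathlib
import Pool.Agent.Lib.MP_1acbfe_co.Checks

/-!
# An evasive triangulated 3-ball which is shellable and locally constructible

The example has 13 vertices and 64 tetrahedra. Its realisation is a ball because it arises from
one tetrahedron by bistellar flips; it is evasive because no sequence of deletions of vertices
whose links have Euler characteristic one reduces it to a single vertex.
-/

open Pool.Agent.Lib.MP_1acbfe_co

namespace Pool.Agent.Results.MP_1acbfe_co.ShellableEvasiveBall

/-- There is a triangulated 3-ball with 13 vertices which is locally constructible (LC), and even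
shellable, and which is evasive. -/
theorem result : ∃ K : PreAbstractSimplicialComplex (Fin 13),
    (∀ v, {v} ∈ K.faces) ∧ IsTriangulatedBall 3 K ∧ IsLC 3 K ∧ IsShellable 3 K ∧
      ¬ NonEvasive K :=
  ⟨ballK, ballK_vertices, ballK_isTriangulatedBall, ballK_isLC, ballK_isShellable, ballK_evasive⟩

end Pool.Agent.Results.MP_1acbfe_co.ShellableEvasiveBall
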